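import Pool.Agent.MP_75da70_an.H7.Gen

/-
Left modules, bimodules and projective tensor products.
-/

namespace Pool.Agent.MP_75da70_an.H8

open H7

variable {A : Type} [NonUnitalNormedCommRing A] [NormedSpace ℂ A]

section Basic

theorem lb_tb_op (M N : LM A) (a b : A) (m : M.carrier) (n : N.carrier) :
    (TB M N).op (a, b) (tm _ _ m n) = tm _ _ (M.op a m) n + tm _ _ m (N.op b n) := by
  simp

theorem lb_mr_tl {M Z : LM A} {E : Type} [NormedAddCommGroup E] [NormedSpace ℂ E]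
    {f : PT M.carrier E →L[ℂ] Z.carrier}
    (h : ∀ a m e, f (tm _ _ (M.op a m) e) = Z.op a (f (tm _ _ m e))) : Mr (TL M E) Z f :=
  fun a => pt_ext (f.comp (lact E M.op a)) ((Z.op a).comp f) fun m e => by
    simp only [ContinuousLinearMap.comp_apply, lact_tm, h]

theorem lb_mr_tb {M N : LM A} {W : BM A} {f : PT M.carrier N.carrier →L[ℂ] W.carrier}
    (h1 : ∀ a m n, f (tm _ _ (M.op a m) n) = W.op (a, 0) (f (tm _ _ m n)))
    (h2 : ∀ a m n, f (tm _ _ m (N.op a n)) = W.op (0, a) (f (tm _ _ m n))) : Mr (TB M N) W f :=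
  mr_bi
    (fun a => pt_ext (f.comp ((TB M N).op (a, 0))) ((W.op (a, 0)).comp f) fun m n => by
      rw [ContinuousLinearMap.comp_apply, ContinuousLinearMap.comp_apply, lb_tb_op, ← h1]; simp)
    (fun a => pt_ext (f.comp ((TB M N).op (0, a))) ((W.op (0, a)).comp f) fun m n => by
      rw [ContinuousLinearMap.comp_apply, ContinuousLinearMap.comp_apply, lb_tb_op, ← h2]; simp)

theorem lb_mr_left {M N : LM A} {W : BM A} {f : PT M.carrier N.carrier →L[ℂ] W.carrier}
    (h : Mr (TB M N) W f) (a : A) (m : M.carrier) (n : N.carrier) :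
    f (tm _ _ (M.op a m) n) = W.op (a, 0) (f (tm _ _ m n)) := by
  rw [← h, lb_tb_op]; simp

theorem lb_mr_right {M N : LM A} {W : BM A} {f : PT M.carrier N.carrier →L[ℂ] W.carrier}
    (h : Mr (TB M N) W f) (a : A) (m : M.carrier) (n : N.carrier) :
    f (tm _ _ m (N.op a n)) = W.op (0, a) (f (tm _ _ m n)) := by
  rw [← h, lb_tb_op]; simp

theorem lb_mr_map {M N M' N' : LM A} {f : M.carrier →L[ℂ] M'.carrier}
    {g : N.carrier →L[ℂ] N'.carrier} (hf : Mr M M' f) (hg : Mr N N' g) :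
    Mr (TB M N) (TB M' N') (PT.map f g) :=
  lb_mr_tb (fun a m n => by rw [PT.map_tm, PT.map_tm, lb_tb_op, hf]; simp)
    (fun a m n => by rw [PT.map_tm, PT.map_tm, lb_tb_op, hg]; simp)

theorem lb_mr_id {ι : Type} [NormedAddCommGroup ι] [NormedSpace ℂ ι] {T : Thy ι} (M : Obj T) :
    Mr M M (.id ℂ _) := fun _ _ => rfl

/-- bounded operators into a module. -/
@[reducible] noncomputable def lbHom (E : Type) [NormedAddCommGroup E] [NormedSpace ℂ E]
    (Z : LM A) : LM A where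
  carrier := E →L[ℂ] Z.carrier
  op := (ContinuousLinearMap.compL ℂ E Z.carrier Z.carrier).comp Z.op
  ax := fun a b t => by ext y; simp [op_mul]

/-- the maps from a module to a bimodule that turn the action into the right action. -/
def lbSub (N : LM A) (Y : BM A) : Submodule ℂ (N.carrier →L[ℂ] Y.carrier) where
  carrier := {f | ∀ a n, f (N.op a n) = Y.op (0, a) (f n)}
  add_mem' := fun {f g} hf hg a n => by
    rw [add_apply, add_apply, map_add, hf a n, hg a n]
  zero_mem' := fun a n => by simp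
  smul_mem' := fun c f hf a n => by
    rw [smul_apply, smul_apply, map_smul, hf a n]

theorem lbSub_closed (N : LM A) (Y : BM A) :
    IsClosed (lbSub N Y : Set (N.carrier →L[ℂ] Y.carrier)) := by
  have : (lbSub N Y : Set (N.carrier →L[ℂ] Y.carrier)) =
      ⋂ a, ⋂ n, {f | f (N.op a n) = Y.op (0, a) (f n)} := by
    ext f
    simp only [Set.mem_iInter]
    rfl
  rw [this]
  exact isClosed_iInter fun a => isClosed_iInter fun n => isClosed_eq (by fun_prop) (by fun_prop)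

/-- right module maps as a left module. -/
@[reducible] noncomputable def lbH (N : LM A) (Y : BM A) : LM A :=
  (lbHom N.carrier Y.left).sub (lbSub N Y) (lbSub_closed N Y) fun a f hf b n => by
    change Y.op (a, 0) (f (N.op b n)) = Y.op (0, b) (Y.op (a, 0) (f n))
    rw [hf b n, Y.ax.2.2]

end Basic

variable [CompleteSpace A] [IsScalarTower ℂ A A] [SMulCommClass ℂ A A]

section Plus

omit [CompleteSpace A]

variable (A) in
/-- the scalar part of an element of the unitization. -/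
noncomputable def lbFst : WithLp 1 (Unitization ℂ A) →L[ℂ] ℂ :=
  LinearMap.mkContinuous
    { toFun := fun x => (WithLp.ofLp x).fst
      map_add' := fun _ _ => rfl
      map_smul' := fun _ _ => rfl } 1 fun x => by
        rw [one_mul, WithLp.unitization_norm_def]
        exact le_add_of_nonneg_right (norm_nonneg _)

variable (A) in
/-- the algebra part of an element of the unitization. -/
noncomputable def lbSnd : WithLp 1 (Unitization ℂ A) →L[ℂ] A :=
  LinearMap.mkContinuous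
    { toFun := fun x => (WithLp.ofLp x).snd
      map_add' := fun _ _ => rfl
      map_smul' := fun _ _ => rfl } 1 fun x => by
        rw [one_mul, WithLp.unitization_norm_def]
        exact le_add_of_nonneg_left (norm_nonneg _)

theorem lbFst_inr (a : A) : lbFst A (inrL A a) = 0 := rfl

theorem lbSnd_inr (a : A) : lbSnd A (inrL A a) = a := rfl

theorem lbFst_one : lbFst A 1 = 1 := rfl

theorem lbSnd_one : lbSnd A 1 = 0 := rfl

theorem lbFst_inr_mul (a : A) (x : WithLp 1 (Unitization ℂ A)) : lbFst A (inrL A a * x) = 0 := by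
  change (WithLp.ofLp (inrL A a) * WithLp.ofLp x).fst = 0
  rw [Unitization.fst_mul]
  exact zero_mul _

theorem lbSnd_inr_mul (a : A) (x : WithLp 1 (Unitization ℂ A)) :
    lbSnd A (inrL A a * x) = lbFst A x • a + a * lbSnd A x := by
  change (WithLp.ofLp (inrL A a) * WithLp.ofLp x).snd = _
  rw [Unitization.snd_mul]
  change (0 : ℂ) • _ + _ + _ = _
  rw [zero_smul, zero_add]
  rfl

theorem lb_decomp (x : WithLp 1 (Unitization ℂ A)) :
    inrL A (lbSnd A x) + lbFst A x • (1 : WithLp 1 (Unitization ℂ A)) = x := by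
  refine WithLp.ofLp_injective 1 (Unitization.ext ?_ ?_)
  · change (0 : ℂ) + lbFst A x • (1 : ℂ) = lbFst A x
    simp
  · change lbSnd A x + lbFst A x • (0 : A) = lbSnd A x
    simp

/-- the action of the unitization on a module. -/
noncomputable def lbAct (M : LM A) :
    WithLp 1 (Unitization ℂ A) →L[ℂ] M.carrier →L[ℂ] M.carrier :=
  (lbFst A).smulRight (.id ℂ _) + M.op.comp (lbSnd A)

theorem lbAct_apply (M : LM A) (x : WithLp 1 (Unitization ℂ A)) (m : M.carrier) :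
    lbAct M x m = lbFst A x • m + M.op (lbSnd A x) m := rfl

theorem lbAct_one (M : LM A) (m : M.carrier) : lbAct M 1 m = m := by
  rw [lbAct_apply, lbFst_one, lbSnd_one]; simp

theorem lbAct_inr_mul (M : LM A) (a : A) (x : WithLp 1 (Unitization ℂ A)) (m : M.carrier) :
    lbAct M (inrL A a * x) m = M.op a (lbAct M x m) := by
  rw [lbAct_apply, lbAct_apply, lbFst_inr_mul, lbSnd_inr_mul]
  simp [op_mul]

theorem lbAct_comm (M : LM A) {N : LM A} {f : M.carrier →L[ℂ] N.carrier} (hf : Mr M N f)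
    (x : WithLp 1 (Unitization ℂ A)) (m : M.carrier) : f (lbAct M x m) = lbAct N x (f m) := by
  rw [lbAct_apply, lbAct_apply, map_add, map_smul, hf]

end Plus

theorem lbAct_plus (x : WithLp 1 (Unitization ℂ A)) : lbAct (plusL A) x 1 = x := by
  rw [lbAct_apply, add_comm]
  change inrL A (lbSnd A x) * 1 + _ = _
  rw [mul_one, lb_decomp]

theorem pj_plusL : Pj (plusL A) := by
  rintro Y X σ hσ ⟨τ, hτ⟩ φ hφ
  refine ⟨(lbAct Y).flip (τ (φ 1)), fun a x => lbAct_inr_mul Y a x _, fun x => ?_⟩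
  rw [ContinuousLinearMap.flip_apply, lbAct_comm Y hσ, hτ, ← lbAct_comm (plusL A) hφ, lbAct_plus]

theorem Pj.tl {M : LM A} (h : Pj M) (E : Type) [NormedAddCommGroup E] [NormedSpace ℂ E] :
    Pj (TL M E) := by
  rintro Z W σ hσ ⟨τ, hτ⟩ φ hφ
  obtain ⟨ψ, h1, h2⟩ := h (lbHom E Z) (lbHom E W) (ContinuousLinearMap.compL ℂ E _ _ σ)
    (fun a t => by ext y; simp [hσ a])
    ⟨ContinuousLinearMap.compL ℂ E _ _ τ, fun t => by ext y; simp [hτ]⟩
    ((ContinuousLinearMap.compL ℂ E _ _ φ).comp (tm M.carrier E))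
    (fun a e => by
      ext y
      have := hφ a (tm M.carrier E e y)
      rw [lact_tm] at this
      simpa using this)
  refine ⟨PT.lift ψ, lb_mr_tl fun a e f => ?_, pt_ext (σ.comp (PT.lift ψ)) φ fun e f => ?_⟩
  · simp only [PT.lift_tm]
    rw [h1 a e]; rfl
  · simpa using DFunLike.congr_fun (h2 e) f

theorem enough_lT : Enough (lT A) := fun M => by
  have hσ : Mr (TL (plusL A) M.carrier) M (PT.lift (lbAct M)) := lb_mr_tl fun a x m => by
    rw [PT.lift_tm, PT.lift_tm]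
    exact lbAct_inr_mul M a x m
  exact ⟨_, _, _, _, SES.of_ker hσ (tm _ _ 1) fun m => by rw [PT.lift_tm, lbAct_one],
    pj_plusL.tl _⟩

theorem Pj.tb {M N : LM A} (hM : Pj M) (hN : Pj N) : Pj (TB M N) := by
  rintro Y X σ hσ ⟨τ, hτ⟩ φ hφ
  obtain ⟨ψ₀, a1, a2⟩ := hN.tl (lbSub N X) Y.right X.right σ (fun a y => hσ (0, a) y) ⟨τ, hτ⟩
    (PT.lift (lbSub N X).subtypeL.flip) (lb_mr_tl fun a n f => by
      rw [PT.lift_tm, PT.lift_tm]
      exact f.2 a n)
  let σ' : (lbH N Y).carrier →L[ℂ] (lbH N X).carrier :=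
    ((ContinuousLinearMap.compL ℂ N.carrier _ _ σ).comp (lbSub N Y).subtypeL).codRestrict
      (lbSub N X) fun f a n => by
        change σ (f.1 (N.op a n)) = X.op (0, a) (σ (f.1 n))
        rw [f.2 a n, hσ]
  let τ' : (lbH N X).carrier →L[ℂ] (lbH N Y).carrier :=
    ((ContinuousLinearMap.compL ℂ (lbSub N X) _ _ ψ₀).comp
      (tm N.carrier (lbSub N X))).flip.codRestrict (lbSub N Y) fun f a n => by
        have := a1 a (tm _ _ n f)
        rw [lact_tm] at this
        exact this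
  let φ' : M.carrier →L[ℂ] (lbH N X).carrier :=
    ((ContinuousLinearMap.compL ℂ N.carrier _ _ φ).comp (tm M.carrier N.carrier)).codRestrict
      (lbSub N X) fun m a n => lb_mr_right hφ a m n
  obtain ⟨ψ, h1, h2⟩ := hM (lbH N Y) (lbH N X) σ'
    (fun a f => Subtype.ext (ContinuousLinearMap.ext fun n => hσ (a, 0) (f.1 n)))
    ⟨τ', fun f => Subtype.ext (ContinuousLinearMap.ext fun n => by
      have := a2 (tm _ _ n f)
      rw [PT.lift_tm] at this
      exact this)⟩ φ'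
    (fun a m => Subtype.ext (ContinuousLinearMap.ext fun n => lb_mr_left hφ a m n))
  refine ⟨PT.lift ((lbSub N Y).subtypeL.comp ψ), lb_mr_tb (fun a m n => ?_) (fun a m n => ?_),
    pt_ext (σ.comp _) φ fun m n => ?_⟩
  · rw [PT.lift_tm, PT.lift_tm]
    exact DFunLike.congr_fun (congrArg Subtype.val (h1 a m)) n
  · rw [PT.lift_tm, PT.lift_tm]
    exact (ψ m).2 a n
  · rw [ContinuousLinearMap.comp_apply, PT.lift_tm]
    exact DFunLike.congr_fun (congrArg Subtype.val (h2 m)) n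

omit [CompleteSpace A] [IsScalarTower ℂ A A] [SMulCommClass ℂ A A] in
theorem lb_mr_lr (M : BM A) (a : A) : Mr M.left M.left (M.op (0, a)) :=
  fun b x => (M.ax.2.2 b a x).symm

omit [CompleteSpace A] [IsScalarTower ℂ A A] [SMulCommClass ℂ A A] in
theorem lb_mr_rl (M : BM A) (a : A) : Mr M.right M.right (M.op (a, 0)) :=
  fun b x => M.ax.2.2 a b x

omit [CompleteSpace A] [IsScalarTower ℂ A A] [SMulCommClass ℂ A A] in
theorem lb_mr_op (M : LM A) (a : A) : Mr M M (M.op a) := fun b x => op_comm M a b x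

theorem enough_bT : Enough (bT A) := fun M => by
  have h0 : Mr (TL (plusL A) M.carrier) M.right (PT.lift (lbAct M.right)) :=
    lb_mr_tl fun a x m => by
      rw [PT.lift_tm, PT.lift_tm]
      exact lbAct_inr_mul M.right a x m
  let β : WithLp 1 (Unitization ℂ A) →L[ℂ] (TL (plusL A) M.carrier).carrier →L[ℂ] M.carrier :=
    ((ContinuousLinearMap.compL ℂ _ M.carrier M.carrier).flip (PT.lift (lbAct M.right))).comp
      (lbAct M.left)
  have hβ : ∀ x t, β x t = lbAct M.left x (PT.lift (lbAct M.right) t) := fun _ _ => rfl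
  have hσ : Mr (TB (plusL A) (TL (plusL A) M.carrier)) M (PT.lift β) :=
    lb_mr_tb (fun a x t => by
      rw [PT.lift_tm, PT.lift_tm, hβ, hβ]
      exact lbAct_inr_mul M.left a x _) (fun a x t => by
      rw [PT.lift_tm, PT.lift_tm, hβ, hβ, h0 a t]
      exact (lbAct_comm M.left (lb_mr_lr M a) x _).symm)
  refine ⟨_, _, _, _, SES.of_ker hσ ((tm _ _ 1).comp (tm _ _ 1)) fun m => ?_,
    pj_plusL.tb (pj_plusL.tl _)⟩
  rw [ContinuousLinearMap.comp_apply, PT.lift_tm, hβ, PT.lift_tm, lbAct_one, lbAct_one]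

theorem Pj.left {P : BM A} (h : Pj P) : Pj P.left := by
  rintro Y X σ hσ ⟨τ, hτ⟩ φ hφ
  obtain ⟨ψ, h1, h2⟩ := h (HomB (plusL A) Y) (HomB (plusL A) X)
    (ContinuousLinearMap.compL ℂ _ _ _ σ)
    (mr_bi (fun a t => by ext y; simp [hσ a]) (fun a t => by ext y; simp))
    ⟨ContinuousLinearMap.compL ℂ _ _ _ τ, fun t => by ext y; simp [hτ]⟩
    ((ContinuousLinearMap.compL ℂ _ _ _ φ).comp (lbAct P.right).flip)
    (mr_bi (fun a p => by
      ext u
      have e1 := lbAct_comm P.right (lb_mr_rl P a) u p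
      have e2 := hφ a (lbAct P.right u p)
      simp only [ContinuousLinearMap.comp_apply, ContinuousLinearMap.inl_apply] at e2
      simp [← e1, e2]) (fun a p => by
      ext u
      have e1 := lbAct_comm P.right (lb_mr_op P.right a) u p
      have e2 := lbAct_inr_mul P.right a u p
      simp only [ContinuousLinearMap.comp_apply, ContinuousLinearMap.inr_apply] at e1 e2
      simp [← e1, e2]))
  refine ⟨ψ.flip 1, fun a p => ?_, fun p => ?_⟩
  · have := DFunLike.congr_fun (h1 (a, 0) p) 1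
    simpa using this
  · have := DFunLike.congr_fun (h2 p) 1
    simpa [lbAct_one] using this

theorem SES.diag {K Q M : LM A} {j σ} (h : SES K Q M j σ) :
    SES (diag K) (diag Q) (diag M) j σ :=
  ⟨fun i x => by simp [h.mj i.1, h.mj i.2], fun i x => by simp [h.mσ i.1, h.mσ i.2], h.split⟩

theorem SES.tb_left {K Q M : LM A} {j σ} (h : SES K Q M j σ) (N : LM A) :
    SES (TB K N) (TB Q N) (TB M N) (PT.map j (.id ℂ _)) (PT.map σ (.id ℂ _)) := by
  obtain ⟨ρ, s, h1, h2, h3⟩ := h.split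
  refine ⟨lb_mr_map h.mj (lb_mr_id N), lb_mr_map h.mσ (lb_mr_id N), PT.map ρ (.id ℂ _),
    PT.map s (.id ℂ _),
    pt_ext ((PT.map ρ (.id ℂ _)).comp (PT.map j (.id ℂ _))) (.id ℂ _) fun e f => by simp [h1],
    pt_ext ((PT.map σ (.id ℂ _)).comp (PT.map s (.id ℂ _))) (.id ℂ _) fun e f => by simp [h2],
    pt_ext ((PT.map j (.id ℂ _)).comp (PT.map ρ (.id ℂ _)) +
      (PT.map s (.id ℂ _)).comp (PT.map σ (.id ℂ _))) (.id ℂ _) fun e f => ?_⟩
  simp only [add_apply, ContinuousLinearMap.comp_apply, PT.map_tm, ContinuousLinearMap.id_apply]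
  rw [← add_apply, ← map_add, h3]

theorem SES.tb_right {K Q M : LM A} {j σ} (h : SES K Q M j σ) (N : LM A) :
    SES (TB N K) (TB N Q) (TB N M) (PT.map (.id ℂ _) j) (PT.map (.id ℂ _) σ) := by
  obtain ⟨ρ, s, h1, h2, h3⟩ := h.split
  refine ⟨lb_mr_map (lb_mr_id N) h.mj, lb_mr_map (lb_mr_id N) h.mσ, PT.map (.id ℂ _) ρ,
    PT.map (.id ℂ _) s,
    pt_ext ((PT.map (.id ℂ _) ρ).comp (PT.map (.id ℂ _) j)) (.id ℂ _) fun e f => by simp [h1],
    pt_ext ((PT.map (.id ℂ _) σ).comp (PT.map (.id ℂ _) s)) (.id ℂ _) fun e f => by simp [h2],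
    pt_ext ((PT.map (.id ℂ _) j).comp (PT.map (.id ℂ _) ρ) +
      (PT.map (.id ℂ _) s).comp (PT.map (.id ℂ _) σ)) (.id ℂ _) fun e f => ?_⟩
  simp only [add_apply, ContinuousLinearMap.comp_apply, PT.map_tm, ContinuousLinearMap.id_apply]
  rw [← map_add, h3]

theorem lb_pd_tb_pj {M : LM A} (hM : Pj M) : ∀ {b : ℕ} {N : LM A}, PD b N → PD b (TB M N)
  | 0, _, hN => (PD.zero_iff enough_bT).mpr (hM.tb ((PD.zero_iff enough_lT).mp hN))
  | b + 1, N, hN => fun W => by
    obtain ⟨K, P, j, σ, hS, hP⟩ := enough_lT N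
    exact EZ.succ_of enough_bT (hS.tb_right M) (hM.tb hP)
      (lb_pd_tb_pj hM (fun W' => hN W' K P j σ hS hP) W)

theorem PD.tb {a b : ℕ} {M N : LM A} (hM : PD a M) (hN : PD b N) : PD (a + b) (TB M N) := by
  induction a generalizing M with
  | zero =>
    rw [zero_add]
    exact lb_pd_tb_pj ((PD.zero_iff enough_lT).mp hM) hN
  | succ a ih =>
    intro W
    obtain ⟨K, P, j, σ, hS, hP⟩ := enough_lT M
    rw [show a + 1 + b = a + b + 1 by ring]
    exact EZ.quot enough_bT (hS.tb_left N) (ih (fun W' => hM W' K P j σ hS hP) W)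
      (PD.mono enough_bT (lb_pd_tb_pj hP hN) (by omega) W)

theorem lb_factor {Z P N : LM A} {j σ} (hS : SES Z P N j σ) (hP : Pj P) {W : BM A}
    (hW : EZ 1 (TB N N) W) (Φ : (TB Z Z).carrier →L[ℂ] W.carrier) (hΦ : Mr (TB Z Z) W Φ) :
    ∃ (Λ₁ : (TB P Z).carrier →L[ℂ] W.carrier) (Λ₂ : (TB Z P).carrier →L[ℂ] W.carrier),
      Mr (TB P Z) W Λ₁ ∧ Mr (TB Z P) W Λ₂ ∧
      ∀ z z', Λ₁ (tm _ _ (j z) z') + Λ₂ (tm _ _ z (j z')) = Φ (tm _ _ z z') := by
  obtain ⟨ρ, s, h1, h2, h3⟩ := hS.split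
  have h0 := hS.zero
  have hσ : Mr (TB P P) (TB N N) (PT.map σ σ) := lb_mr_map hS.mσ hS.mσ
  have hK : EZ 0 ((TB P P).ker (TB N N) (PT.map σ σ) hσ) W :=
    hW _ _ _ _ (SES.of_ker hσ (PT.map s s)
      (pt_ext ((PT.map σ σ).comp (PT.map s s)) (.id ℂ _) fun e f => by simp [h2])) (hP.tb hP)
  have m1 : Mr (TB Z Z) (TB P Z) (PT.map j (.id ℂ _)) := lb_mr_map hS.mj (lb_mr_id Z)
  have m2 : Mr (TB Z Z) (TB Z P) (PT.map (.id ℂ _) j) := lb_mr_map (lb_mr_id Z) hS.mj
  have m3 : Mr (TB P Z) (TB P P) (PT.map (.id ℂ _) j) := lb_mr_map (lb_mr_id P) hS.mj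
  have m4 : Mr (TB Z P) (TB P P) (PT.map j (.id ℂ _)) := lb_mr_map hS.mj (lb_mr_id P)
  let J : (TB Z Z).carrier →L[ℂ] ((TB P Z).prod (TB Z P)).carrier :=
    (PT.map j (.id ℂ _)).prod (-PT.map (.id ℂ _) j)
  have hJ : ∀ w, J w = (PT.map j (.id ℂ _) w, -PT.map (.id ℂ _) j w) := fun _ => rfl
  let S₀ : ((TB P Z).prod (TB Z P)).carrier →L[ℂ] (TB P P).carrier :=
    (PT.map (.id ℂ _) j).coprod (PT.map j (.id ℂ _))
  have hS₀ : ∀ t, S₀ t = PT.map (.id ℂ _) j t.1 + PT.map j (.id ℂ _) t.2 := fun _ => rfl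
  have z1 : ∀ a : (TB P Z).carrier, PT.map σ σ (PT.map (.id ℂ _) j a) = 0 :=
    pt_ext ((PT.map σ σ).comp (PT.map (.id ℂ _) j)) 0 fun e f => by simp [h0]
  have z2 : ∀ b : (TB Z P).carrier, PT.map σ σ (PT.map j (.id ℂ _) b) = 0 :=
    pt_ext ((PT.map σ σ).comp (PT.map j (.id ℂ _))) 0 fun e f => by simp [h0]
  let S : ((TB P Z).prod (TB Z P)).carrier →L[ℂ] ((TB P P).ker (TB N N) (PT.map σ σ) hσ).carrier :=
    S₀.codRestrict (PT.map σ σ).ker fun t => by
      change PT.map σ σ (S₀ t) = 0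
      rw [hS₀, map_add, z1, z2, add_zero]
  have hSv : ∀ t, (S t).1 = PT.map (.id ℂ _) j t.1 + PT.map j (.id ℂ _) t.2 := fun _ => rfl
  let s' : ((TB P P).ker (TB N N) (PT.map σ σ) hσ).carrier →L[ℂ]
      ((TB P Z).prod (TB Z P)).carrier :=
    ((PT.map (s.comp σ) ρ).prod (PT.map ρ (.id ℂ _))).comp (PT.map σ σ).ker.subtypeL
  have hs' : ∀ k, s' k = (PT.map (s.comp σ) ρ k.1, PT.map ρ (.id ℂ _) k.1) := fun _ => rfl
  let ρ' : ((TB P Z).prod (TB Z P)).carrier →L[ℂ] (TB Z Z).carrier :=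
    (PT.map ρ (.id ℂ _)).comp (ContinuousLinearMap.fst ℂ _ _)
  have hρ' : ∀ t, ρ' t = PT.map ρ (.id ℂ _) t.1 := fun _ => rfl
  have e1 : ∀ w : (TB Z Z).carrier, PT.map ρ (.id ℂ _) (PT.map j (.id ℂ _) w) = w :=
    pt_ext ((PT.map ρ (.id ℂ _)).comp (PT.map j (.id ℂ _))) (.id ℂ _) fun e f => by simp [h1]
  have e2 : ∀ t : (TB P P).carrier, PT.map (.id ℂ _) j (PT.map (s.comp σ) ρ t) +
      PT.map j (.id ℂ _) (PT.map ρ (.id ℂ _) t) + PT.map s s (PT.map σ σ t) = t :=
    pt_ext ((PT.map (.id ℂ _) j).comp (PT.map (s.comp σ) ρ) +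
      (PT.map j (.id ℂ _)).comp (PT.map ρ (.id ℂ _)) + (PT.map s s).comp (PT.map σ σ)) (.id ℂ _)
      fun e f => by
        simp only [add_apply, ContinuousLinearMap.comp_apply, PT.map_tm,
          ContinuousLinearMap.id_apply]
        rw [add_right_comm, ← map_add, h3, add_comm, ← add_apply, ← map_add, h3]
  have e3 : ∀ a : (TB P Z).carrier, PT.map j (.id ℂ _) (PT.map ρ (.id ℂ _) a) +
      PT.map (s.comp σ) ρ (PT.map (.id ℂ _) j a) = a :=
    pt_ext ((PT.map j (.id ℂ _)).comp (PT.map ρ (.id ℂ _)) +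
      (PT.map (s.comp σ) ρ).comp (PT.map (.id ℂ _) j)) (.id ℂ _) fun e f => by
        simp only [add_apply, ContinuousLinearMap.comp_apply, PT.map_tm,
          ContinuousLinearMap.id_apply, h1]
        rw [← add_apply, ← map_add, h3]
  have e4 : ∀ b : (TB Z P).carrier, PT.map (s.comp σ) ρ (PT.map j (.id ℂ _) b) = 0 :=
    pt_ext ((PT.map (s.comp σ) ρ).comp (PT.map j (.id ℂ _))) 0 fun e f => by simp [h0]
  have e5 : ∀ a : (TB P Z).carrier, PT.map ρ (.id ℂ _) (PT.map (.id ℂ _) j a) =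
      PT.map (.id ℂ _) j (PT.map ρ (.id ℂ _) a) :=
    pt_ext ((PT.map ρ (.id ℂ _)).comp (PT.map (.id ℂ _) j))
      ((PT.map (.id ℂ _) j).comp (PT.map ρ (.id ℂ _))) fun e f => by simp
  have e6 : ∀ b : (TB Z P).carrier, PT.map ρ (.id ℂ _) (PT.map j (.id ℂ _) b) = b :=
    pt_ext ((PT.map ρ (.id ℂ _)).comp (PT.map j (.id ℂ _))) (.id ℂ _) fun e f => by simp [h1]
  have hses : SES (TB Z Z) ((TB P Z).prod (TB Z P)) ((TB P P).ker (TB N N) (PT.map σ σ) hσ) J S := by
    refine ⟨fun i w => ?_, fun i t => Subtype.ext ?_, ρ', s', fun w => ?_, fun k => Subtype.ext ?_,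
      fun t => ?_⟩
    · rw [hJ, hJ, m1, m2, prodOp_apply, map_neg]
    · rw [hSv, subOp_val, hSv, prodOp_apply, m3, m4, map_add]
    · rw [hρ', hJ, e1]
    · have hk : PT.map σ σ k.1 = 0 := k.2
      have := e2 k.1
      rw [hk, map_zero, add_zero] at this
      rw [hSv, hs']
      exact this
    · rw [hJ, hs', hρ', hSv, map_add, map_add, e4, e5, e6, add_zero, Prod.mk_add_mk, e3,
        neg_add_cancel_left]
  obtain ⟨ψ, p1, p2⟩ := hK _ _ J S hses Φ hΦ
  refine ⟨ψ.comp (ContinuousLinearMap.inl ℂ _ _), -ψ.comp (ContinuousLinearMap.inr ℂ _ _),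
    fun i a => ?_, fun i b => ?_, fun z z' => ?_⟩
  · have := p1 i (a, 0)
    rw [prodOp_apply, map_zero] at this
    exact this
  · have := p1 i (0, b)
    rw [prodOp_apply, map_zero] at this
    rw [neg_apply, neg_apply, map_neg]
    exact congrArg Neg.neg this
  · rw [← p2, hJ, PT.map_tm, PT.map_tm, neg_apply, ContinuousLinearMap.comp_apply,
      ContinuousLinearMap.comp_apply, ← map_neg, ← map_add]
    simp

/-- the shifting argument: `Z 0 = M`, `0 → Z (k+1) → P k → Z k → 0`, `Z (r+1)` projective. -/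
theorem factor_of_ez {r : ℕ} (Z P : ℕ → LM A) (j : ∀ k, (Z (k + 1)).carrier →L[ℂ] (P k).carrier)
    (σ : ∀ k, (P k).carrier →L[ℂ] (Z k).carrier) (hS : ∀ k, SES (Z (k + 1)) (P k) (Z k) (j k) (σ k))
    (hP : ∀ k, Pj (P k)) (hZ : Pj (Z (r + 1))) {W : BM A}
    (hW : EZ (2 * r + 1) (TB (Z 0) (Z 0)) W)
    (Φ : (TB (Z (r + 1)) (Z (r + 1))).carrier →L[ℂ] W.carrier)
    (hΦ : Mr (TB (Z (r + 1)) (Z (r + 1))) W Φ) :
    ∃ (Λ₁ : (TB (P r) (Z (r + 1))).carrier →L[ℂ] W.carrier)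
      (Λ₂ : (TB (Z (r + 1)) (P r)).carrier →L[ℂ] W.carrier),
      Mr (TB (P r) (Z (r + 1))) W Λ₁ ∧ Mr (TB (Z (r + 1)) (P r)) W Λ₂ ∧
      ∀ z z', Λ₁ (tm _ _ (j r z) z') + Λ₂ (tm _ _ z (j r z')) = Φ (tm _ _ z z') := by
  have hP0 : ∀ k, PD 0 (P k) := fun k => (PD.zero_iff enough_lT).mpr (hP k)
  have hpd : ∀ d a, a + d = r + 1 → PD d (Z a) := by
    intro d
    induction d with
    | zero =>
      intro a ha
      obtain rfl : a = r + 1 := ha
      exact (PD.zero_iff enough_lT).mpr hZ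
    | succ d ih =>
      intro a ha W'
      exact EZ.succ_of enough_lT (hS a) (hP a) (ih (a + 1) (by omega) W')
  have c1 : ∀ a k, a ≤ r → a + k = 2 * r + 1 → EZ k (TB (Z a) (Z 0)) W := by
    intro a
    induction a with
    | zero =>
      intro k _ hk
      obtain rfl : k = 2 * r + 1 := by omega
      exact hW
    | succ a ih =>
      intro k ha hk
      exact EZ.sub enough_bT ((hS a).tb_left (Z 0))
        (PD.mono enough_bT ((hP0 a).tb (hpd (r + 1) 0 (by omega))) (by omega) W)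
        (ih (k + 1) (by omega) (by omega))
  have c2 : ∀ b k, b ≤ r → b + k = r + 1 → EZ k (TB (Z r) (Z b)) W := by
    intro b
    induction b with
    | zero =>
      intro k _ hk
      exact c1 r k le_rfl (by omega)
    | succ b ih =>
      intro k hb hk
      exact EZ.sub enough_bT ((hS b).tb_right (Z r))
        (PD.mono enough_bT ((hpd 1 r rfl).tb (hP0 b)) (by omega) W)
        (ih (k + 1) (by omega) (by omega))
  exact lb_factor (hS r) (hP r) (c2 r 1 le_rfl rfl) Φ hΦ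

/-- for unital `A`: `0 → A → A₊ → ℂ → 0` with a projective quotient. -/
theorem exists_ses_plus (e : A) (he : ∀ a, e * a = a) : ∃ (Q : BM A)
    (σ : (diag (plusL A)).carrier →L[ℂ] Q.carrier),
    SES (diag (regL A)) (diag (plusL A)) Q (inrL A) σ ∧ Pj Q := by
  refine ⟨mkBi ℂ 0 0 (fun _ _ _ => rfl) (fun _ _ _ => rfl) (fun _ _ _ => rfl), lbFst A,
    ⟨fun i x => ?_, fun i x => ?_, lbSnd A, (ContinuousLinearMap.id ℂ ℂ).smulRight 1,
      lbSnd_inr, fun c => ?_, lb_decomp⟩, ?_⟩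
  · simp [inrL_mul]
  · simp [lbFst_inr_mul]
  · simp [lbFst_one]
  · rintro Y X σ hσ ⟨τ, hτ⟩ φ hφ
    have h0 : ∀ i, X.op i (φ 1) = 0 := fun i => by
      rw [← hφ]; simp
    let y₁ := τ (φ 1) - Y.op (0, e) (τ (φ 1))
    let y₂ := y₁ - Y.op (e, 0) y₁
    have a1 : ∀ a, Y.op (0, a) y₁ = 0 := fun a => by
      rw [map_sub, ← Y.ax.2.1, mul_comm, he, sub_self]
    have a2 : ∀ a, Y.op (a, 0) y₂ = 0 := fun a => by
      rw [map_sub, ← Y.ax.1, mul_comm, he, sub_self]
    have a3 : ∀ a, Y.op (0, a) y₂ = 0 := fun a => by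
      rw [map_sub, ← Y.ax.2.2, a1, map_zero, sub_self]
    have b1 : σ y₁ = φ 1 := by rw [map_sub, hσ, hτ, h0, sub_zero]
    have b2 : σ y₂ = φ 1 := by rw [map_sub, hσ, b1, h0, sub_zero]
    refine ⟨(ContinuousLinearMap.id ℂ ℂ).smulRight y₂,
      mr_bi (fun a c => by simp [a2]) (fun a c => by simp [a3]), fun c => ?_⟩
    rw [ContinuousLinearMap.smulRight_apply, map_smul, b2, ← map_smul]
    simp

end Pool.Agent.MP_75da70_an.H8
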