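import Pool.Agent.MP_75da70_an.H8.IDefs

/-
Iterated ultralimits of arrays whose two-variable slices factor through Hilbert space.
-/

namespace Pool.Agent.MP_75da70_an.H8

open Filter Topology Set H7
open scoped InnerProductSpace

/-- the two ultralimits of a matrix that factors through Hilbert space commute. -/
theorem noconf_comm {I J : Type} {M : I → J → ℂ} {C : ℝ} (h : G2 M C) (𝒰 : Ultrafilter I)
    (𝒱 : Ultrafilter J) {r : I → ℂ} {c : J → ℂ} {a b : ℂ}
    (hr : ∀ x, Tendsto (fun y => M x y) 𝒱 (𝓝 (r x)))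
    (hc : ∀ y, Tendsto (fun x => M x y) 𝒰 (𝓝 (c y)))
    (ha : Tendsto r 𝒰 (𝓝 a)) (hb : Tendsto c 𝒱 (𝓝 b)) : a = b := by
  obtain ⟨H, _, _, _, ξ, η, hξ, hη, h⟩ := h.hilbert
  obtain ⟨u, hu⟩ := exists_weak_ulim 𝒰 ξ (B := √C) fun k => Real.le_sqrt_of_sq_le (hξ k)
  obtain ⟨v, hv⟩ := exists_weak_ulim 𝒱 η (B := √C) fun k => Real.le_sqrt_of_sq_le (hη k)
  have hv' : ∀ w, Tendsto (fun k => ⟪w, η k⟫_ℂ) 𝒱 (𝓝 ⟪w, v⟫_ℂ) := fun w => by
    have := (Complex.continuous_conj.tendsto _).comp (hv w)
    simpa [Function.comp_def] using this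
  have e1 : r = fun x => ⟪ξ x, v⟫_ℂ := funext fun x =>
    tendsto_nhds_unique (hr x) (by simpa only [h] using hv' (ξ x))
  have e2 : c = fun y => ⟪u, η y⟫_ℂ := funext fun y =>
    tendsto_nhds_unique (hc y) (by simpa only [h] using hu (η y))
  rw [e1] at ha
  rw [e2] at hb
  exact (tendsto_nhds_unique ha (hu v)).trans (tendsto_nhds_unique (hv' u) hb)

variable {n : ℕ}

/-- bounded arrays all of whose two-variable slices factor through Hilbert space. -/
def NoconfCls (C : ℝ) (f : (Fin n → ℕ) → ℂ) : Prop :=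
  (∀ s, ‖f s‖ ≤ C) ∧ ∀ k l s, k ≠ l →
    G2 (fun x y : ℕ => f (Function.update (Function.update s k x) l y)) C

/-- the ultralimit in one variable. -/
noncomputable def noconfT (k : Fin n) (f : (Fin n → ℕ) → ℂ) : (Fin n → ℕ) → ℂ :=
  fun s => limUnder (hyperfilter ℕ : Filter ℕ) fun x => f (Function.update s k x)

theorem NoconfCls.tendsto {C : ℝ} {f : (Fin n → ℕ) → ℂ} (h : NoconfCls C f) (k : Fin n)
    (s : Fin n → ℕ) :
    Tendsto (fun x => f (Function.update s k x)) (hyperfilter ℕ) (𝓝 (noconfT k f s)) :=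
  tendsto_nhds_limUnder (exists_ulim (hyperfilter ℕ) _ (Eventually.of_forall fun _ => h.1 _))

theorem NoconfCls.lim {C : ℝ} {f : (Fin n → ℕ) → ℂ} (h : NoconfCls C f) (k : Fin n) :
    NoconfCls C (noconfT k f) := by
  refine ⟨fun s => le_of_tendsto (h.tendsto k s).norm (Eventually.of_forall fun _ => h.1 _),
    fun k' l' s hkl => ?_⟩
  refine G2.of_tendsto (hyperfilter ℕ : Filter ℕ) (Cs := fun _ => C)
    (Ms := fun z x y =>
      f (Function.update (Function.update (Function.update s k' x) l' y) k z))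
    (Eventually.of_forall fun z => ?_) tendsto_const_nhds fun x y => h.tendsto k _
  by_cases h1 : k = l'
  · subst h1
    refine ((h.2 k' k s hkl).comp id (fun _ : ℕ => z)).congr fun x y => ?_
    simp only [id, Function.update_idem]
  by_cases h2 : k = k'
  · subst h2
    refine ((h.2 k l' s hkl).comp (fun _ : ℕ => z) id).congr fun x y => ?_
    rw [Function.update_comm hkl x y s, Function.update_idem, Function.update_comm hkl z (id y) s]
    rfl
  · refine (h.2 k' l' (Function.update s k z) hkl).congr fun x y => ?_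
    rw [Function.update_comm h2, Function.update_comm h1]

theorem NoconfCls.comm {C : ℝ} {f : (Fin n → ℕ) → ℂ} (h : NoconfCls C f) (k l : Fin n) :
    noconfT k (noconfT l f) = noconfT l (noconfT k f) := by
  by_cases hkl : k = l
  · rw [hkl]
  funext s
  refine noconf_comm (h.2 k l s hkl) (hyperfilter ℕ) (hyperfilter ℕ)
    (r := fun x => noconfT l f (Function.update s k x))
    (c := fun y => noconfT k f (Function.update s l y)) (fun x => h.tendsto l _) (fun y => ?_)
    ((h.lim l).tendsto k s) ((h.lim k).tendsto l s)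
  refine (h.tendsto k (Function.update s l y)).congr fun x => ?_
  rw [Function.update_comm hkl]

theorem NoconfCls.fold {C : ℝ} {f : (Fin n → ℕ) → ℂ} (h : NoconfCls C f) (l : List (Fin n)) :
    NoconfCls C (l.foldr noconfT f) := by
  induction l with
  | nil => exact h
  | cons k l ih => exact ih.lim k

theorem NoconfCls.perm {C : ℝ} {f : (Fin n → ℕ) → ℂ} (h : NoconfCls C f) {l l' : List (Fin n)}
    (hp : l.Perm l') : l.foldr noconfT f = l'.foldr noconfT f := by
  induction hp with
  | nil => rfl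
  | cons k _ ih => simp only [List.foldr_cons, ih]
  | swap k k' l => exact (h.fold l).comm k' k
  | trans _ _ ih1 ih2 => exact ih1.trans ih2

/-- a property holds after moving the listed variables far out, one after the other. -/
def NoconfEv : List (Fin n) → ((Fin n → ℕ) → Prop) → (Fin n → ℕ) → Prop
  | [], P, s => P s
  | k :: l, P, s => ∀ᶠ x in (hyperfilter ℕ : Filter ℕ), NoconfEv l P (Function.update s k x)

theorem NoconfEv.and {P Q R : (Fin n → ℕ) → Prop} (hR : ∀ s, P s → Q s → R s) :
    ∀ (l : List (Fin n)) (s : Fin n → ℕ), NoconfEv l P s → NoconfEv l Q s → NoconfEv l R s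
  | [], s, h1, h2 => hR s h1 h2
  | k :: l, s, h1, h2 => by
    have h1' : ∀ᶠ x in (hyperfilter ℕ : Filter ℕ), NoconfEv l P (Function.update s k x) := h1
    have h2' : ∀ᶠ x in (hyperfilter ℕ : Filter ℕ), NoconfEv l Q (Function.update s k x) := h2
    show ∀ᶠ x in (hyperfilter ℕ : Filter ℕ), NoconfEv l R (Function.update s k x)
    filter_upwards [h1', h2'] with x a b
    exact NoconfEv.and hR l _ a b

theorem noconf_ev_inj : ∀ (l : List (Fin n)) (s : Fin n → ℕ), InjOn s {k | k ∉ l} →
    NoconfEv l Function.Injective s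
  | [], s, h => fun a b hab => h (by simp) (by simp) hab
  | k :: l, s, h => by
    show ∀ᶠ x in (hyperfilter ℕ : Filter ℕ), NoconfEv l _ (Function.update s k x)
    filter_upwards [compl_mem_hyperfilter_of_finite (finite_range s)] with x hx
    refine noconf_ev_inj l _ fun a ha b hb hab => ?_
    by_cases h1 : a = k
    · by_cases h2 : b = k
      · rw [h1, h2]
      · rw [h1, Function.update_self, Function.update_of_ne h2] at hab
        exact absurd ⟨b, hab.symm⟩ hx
    · by_cases h2 : b = k
      · rw [h2, Function.update_self, Function.update_of_ne h1] at hab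
        exact absurd ⟨a, hab⟩ hx
      · rw [Function.update_of_ne h1, Function.update_of_ne h2] at hab
        exact h (fun hm => (List.mem_cons.mp hm).elim h1 ha)
          (fun hm => (List.mem_cons.mp hm).elim h2 hb) hab

theorem noconf_ev_max (i : Fin n) : ∀ (l : List (Fin n)) (s : Fin n → ℕ),
    NoconfEv (l ++ [i]) (fun s => ∀ k, s k ≤ s i) s
  | [], s => by
    show ∀ᶠ x in (hyperfilter ℕ : Filter ℕ),
      ∀ k, Function.update s i x k ≤ Function.update s i x i
    filter_upwards [Nat.hyperfilter_le_atTop (eventually_ge_atTop (Finset.univ.sup s))] with x hx k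
    rw [Function.update_self]
    by_cases hk : k = i
    · rw [hk, Function.update_self]
    · rw [Function.update_of_ne hk]
      exact (Finset.le_sup (f := s) (Finset.mem_univ k)).trans hx
  | k :: l, s => by
    show ∀ᶠ x in (hyperfilter ℕ : Filter ℕ), NoconfEv (l ++ [i]) _ (Function.update s k x)
    exact Eventually.of_forall fun x => noconf_ev_max i l _

theorem noconf_closed {C : ℝ} {f : Fin n → (Fin n → ℕ) → ℂ} (h : ∀ i, NoconfCls C (f i))
    {K : Set (Fin n → ℂ)} (hK : IsClosed K) : ∀ (l : List (Fin n)) (s : Fin n → ℕ),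
      NoconfEv l (fun s => (fun i => f i s) ∈ K) s → (fun i => l.foldr noconfT (f i) s) ∈ K
  | [], _, hs => hs
  | k :: l, s, hs => by
    have hs' : ∀ᶠ x in (hyperfilter ℕ : Filter ℕ),
        NoconfEv l (fun s => (fun i => f i s) ∈ K) (Function.update s k x) := hs
    refine hK.mem_of_tendsto (b := (hyperfilter ℕ : Filter ℕ))
      (f := fun x i => l.foldr noconfT (f i) (Function.update s k x))
      (tendsto_pi_nhds.mpr fun i => ((h i).fold l).tendsto k s) ?_
    filter_upwards [hs'] with x hx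
    exact noconf_closed h hK l _ hx

theorem noconf_nat {C ε : ℝ} (hε : n * ε < 1) (b : Fin n → (Fin n → ℕ) → ℂ)
    (hb : ∀ i, NoconfCls C (b i)) (hsum : ∀ s, Function.Injective s → ∑ i, b i s = 1)
    (hle : ∀ i s, Function.Injective s → (∀ k, s k ≤ s i) → ‖b i s‖ ≤ ε) : False := by
  let l₀ := List.finRange n
  let s₀ : Fin n → ℕ := fun _ => 0
  have hinj : ∀ l : List (Fin n), l.Perm l₀ → NoconfEv l Function.Injective s₀ := fun l hl =>
    noconf_ev_inj l s₀ fun a ha => absurd (hl.mem_iff.mpr (List.mem_finRange a)) ha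
  have h1 : ∑ i, l₀.foldr noconfT (b i) s₀ = 1 :=
    noconf_closed hb (K := {v | ∑ i, v i = 1}) (isClosed_eq (by fun_prop) continuous_const) l₀ s₀
      (NoconfEv.and (fun s a _ => hsum s a) l₀ s₀ (hinj l₀ (List.Perm.refl _))
        (hinj l₀ (List.Perm.refl _)))
  have h2 : ∀ i, ‖l₀.foldr noconfT (b i) s₀‖ ≤ ε := fun i => by
    have hp : (l₀.erase i ++ [i]).Perm l₀ :=
      (List.perm_append_singleton i _).trans (List.perm_cons_erase (List.mem_finRange i)).symm
    rw [← (hb i).perm hp]
    exact noconf_closed hb (K := {v | ‖v i‖ ≤ ε}) (isClosed_le (by fun_prop) continuous_const) _ s₀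
      (NoconfEv.and (fun s a a' => hle i s a a') _ s₀ (hinj _ hp) (noconf_ev_max i _ s₀))
  have h3 : (1 : ℝ) ≤ n * ε := by
    calc (1 : ℝ) = ‖∑ i, l₀.foldr noconfT (b i) s₀‖ := by rw [h1, norm_one]
      _ ≤ ∑ i, ‖l₀.foldr noconfT (b i) s₀‖ := norm_sum_le _ _
      _ ≤ ∑ _i : Fin n, ε := Finset.sum_le_sum fun i _ => h2 i
      _ = n * ε := by simp
  linarith

theorem no_config (n : ℕ) (C : ℝ) {ε : ℝ} (hε : n * ε < 1) : ∃ L : ℕ,
    ∀ b : Fin n → (Fin n → Fin L) → ℂ,
      (∀ i k l s, k ≠ l →
        G2 (fun x y : Fin L => b i (Function.update (Function.update s k x) l y)) C) →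
      (∀ s, Function.Injective s → ∑ i, b i s = 1) →
      (∀ i s, Function.Injective s → (∀ k, s k ≤ s i) → ‖b i s‖ ≤ ε) → False := by
  by_cases hn : n ≤ 1
  · refine ⟨1, fun b _ hsum hle => ?_⟩
    have : Subsingleton (Fin n) := Fin.subsingleton_iff_le_one.mpr hn
    let s : Fin n → Fin 1 := fun _ => 0
    have hs : Function.Injective s := fun a c _ => Subsingleton.elim a c
    have h3 : (1 : ℝ) ≤ n * ε := by
      calc (1 : ℝ) = ‖∑ i, b i s‖ := by rw [hsum s hs, norm_one]
        _ ≤ ∑ i, ‖b i s‖ := norm_sum_le _ _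
        _ ≤ ∑ _i : Fin n, ε := Finset.sum_le_sum fun i _ => hle i s hs fun _ => le_rfl
        _ = n * ε := by simp
    linarith
  by_contra hcon
  push Not at hcon
  choose b hb1 hb2 hb3 _ using fun L => hcon (L + 1)
  let π : (L : ℕ) → ℕ → Fin (L + 1) := fun L x => Fin.ofNat (L + 1) x
  have hπ : ∀ L x, x ≤ L → (π L x : ℕ) = x := fun L x hx => Nat.mod_eq_of_lt (Nat.lt_succ_of_le hx)
  let k₀ : Fin n := ⟨0, by omega⟩
  let k₁ : Fin n := ⟨1, by omega⟩
  have hk : k₀ ≠ k₁ := fun h => by simpa [k₀, k₁] using congrArg Fin.val h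
  have hbd : ∀ L i s, ‖b L i s‖ ≤ C := fun L i s => by
    simpa only [Function.update_eq_self] using (hb1 L i k₀ k₁ s hk).norm_le (s k₀) (s k₁)
  choose a ha using fun (i : Fin n) (s : Fin n → ℕ) => exists_ulim (hyperfilter ℕ)
    (fun L => b L i (π L ∘ s)) (Eventually.of_forall fun L => hbd L i _)
  have hev : ∀ s : Fin n → ℕ, ∀ᶠ L in (hyperfilter ℕ : Filter ℕ), ∀ k, (π L (s k) : ℕ) = s k :=
    fun s => by
      filter_upwards [Nat.hyperfilter_le_atTop (eventually_ge_atTop (Finset.univ.sup s))] with L hL k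
      exact hπ L _ ((Finset.le_sup (f := s) (Finset.mem_univ k)).trans hL)
  have hinj : ∀ (s : Fin n → ℕ) (L : ℕ), Function.Injective s → (∀ k, (π L (s k) : ℕ) = s k) →
      Function.Injective (π L ∘ s) := fun s L hs hL k k' hkk => hs (by
    rw [← hL k, ← hL k']
    exact congrArg Fin.val hkk)
  refine noconf_nat (C := C) hε a (fun i => ⟨fun s => ?_, fun k l s hkl => ?_⟩) (fun s hs => ?_)
    fun i s hs hm => ?_
  · exact le_of_tendsto (ha i s).norm (Eventually.of_forall fun L => hbd L i _)
  · refine G2.of_tendsto (hyperfilter ℕ : Filter ℕ) (Cs := fun _ => C)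
      (Ms := fun L x y => b L i (π L ∘ Function.update (Function.update s k x) l y))
      (Eventually.of_forall fun L => ?_) tendsto_const_nhds fun x y => ha i _
    refine ((hb1 L i k l (π L ∘ s) hkl).comp (π L) (π L)).congr fun x y => ?_
    rw [Function.comp_update, Function.comp_update]
  · refine tendsto_nhds_unique (tendsto_finsetSum _ fun i _ => ha i s)
      (tendsto_const_nhds.congr' ?_)
    filter_upwards [hev s] with L hL
    exact (hb2 L _ (hinj s L hs hL)).symm
  · refine le_of_tendsto (ha i s).norm ?_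
    filter_upwards [hev s] with L hL
    refine hb3 L i _ (hinj s L hs hL) fun k => ?_
    show (π L (s k) : ℕ) ≤ π L (s i)
    rw [hL, hL]
    exact hm k

end Pool.Agent.MP_75da70_an.H8
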