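import Pool.Agent.MP_75da70_an.H8.IDefs

/-
Rank structures on compact scattered spaces of finite height.
-/

namespace Pool.Agent.MP_75da70_an.H8

open Filter Topology Set H7

variable {Ω : Type} [TopologicalSpace Ω] [CompactSpace Ω] [T2Space Ω]
  [TotallyDisconnectedSpace Ω]

theorem struct_clopen_sub {x : Ω} {V : Set Ω} (hV : V ∈ 𝓝 x) :
    ∃ W : Set Ω, IsClopen W ∧ x ∈ W ∧ W ⊆ V := by
  obtain ⟨W, hW, hWV⟩ := (nhds_basis_clopen x).mem_iff.mp hV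
  exact ⟨W, hW.2, hW.1, hWV⟩

theorem exists_RS {H : ℕ} (hH : Dm Ω H = ∅) : ∃ (U : Ω → Set Ω) (rk : Ω → ℕ), RS U rk H := by
  classical
  have h0 : ∀ x : Ω, x ∈ Dm Ω 0 := fun x => by simp [Dm]
  have hlt : ∀ (x : Ω) (m : ℕ), x ∉ Dm Ω m → ∃ m', m = m' + 1 := fun x m hx => by
    cases m with
    | zero => exact absurd (h0 x) hx
    | succ m' => exact ⟨m', rfl⟩
  have hxH : ∀ x : Ω, x ∉ Dm Ω H := fun x => by rw [hH]; exact notMem_empty x
  have hex : ∀ x : Ω, ∃ m, x ∉ Dm Ω (m + 1) := fun x => by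
    obtain ⟨m, hm⟩ := hlt x H (hxH x)
    exact ⟨m, hm ▸ hxH x⟩
  let rk : Ω → ℕ := fun x => Nat.find (hex x)
  have hrk : ∀ (x : Ω) (m : ℕ), x ∉ Dm Ω m → rk x < m := fun x m hx => by
    obtain ⟨m', rfl⟩ := hlt x m hx
    exact Nat.lt_succ_of_le (Nat.find_min' (hex x) hx)
  have hU : ∀ x : Ω, ∃ W : Set Ω, IsClopen W ∧ x ∈ W ∧ ∀ y ∈ W, y ≠ x → y ∉ Dm Ω (rk x) := by
    intro x
    have h1 : x ∉ Dm Ω (rk x + 1) := Nat.find_spec (hex x)
    rw [Dm_succ, mem_derivedSet, accPt_iff_nhds] at h1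
    push Not at h1
    obtain ⟨V, hV, hV'⟩ := h1
    obtain ⟨W, hW, hxW, hWV⟩ := struct_clopen_sub hV
    exact ⟨W, hW, hxW, fun y hy hne hD => hne (hV' y ⟨hWV hy, hD⟩)⟩
  choose U hU1 hU2 hU3 using hU
  exact ⟨U, rk, hU1, hU2, fun x y hy hne => hrk y _ (hU3 x y hy hne), fun x => hrk x H (hxH x)⟩

theorem RS.finite_level {U : Ω → Set Ω} {rk : Ω → ℕ} {H : ℕ} (h : RS U rk H) {S : Set Ω}
    (hS : IsClosed S) {j : ℕ} (hj : ∀ x ∈ S, rk x = j) : S.Finite := by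
  obtain ⟨t, ht, hcov⟩ := hS.isCompact.elim_nhds_subcover U
    (fun x _ => (h.clopen x).isOpen.mem_nhds (h.self x))
  refine t.finite_toSet.subset fun y hy => ?_
  obtain ⟨x, hx, hyx⟩ := mem_iUnion₂.mp (hcov hy)
  by_cases hne : y = x
  · exact hne ▸ hx
  · have := h.lt x y hyx hne
    rw [hj y hy, hj x (ht x hx)] at this
    exact absurd this (lt_irrefl _)

omit [CompactSpace Ω] [T2Space Ω] [TotallyDisconnectedSpace Ω] in
theorem RS.struct_closed_ge {U : Ω → Set Ω} {rk : Ω → ℕ} {H : ℕ} (h : RS U rk H) (i : ℕ) :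
    IsClosed {y | i ≤ rk y} := by
  rw [← isOpen_compl_iff, isOpen_iff_mem_nhds]
  intro y hy
  refine mem_of_superset ((h.clopen y).isOpen.mem_nhds (h.self y)) fun x hx => ?_
  simp only [mem_compl_iff, mem_ofPred_eq, not_le] at hy ⊢
  by_cases hne : x = y
  · exact hne ▸ hy
  · exact (h.lt y x hx hne).trans hy

/-- the points of rank `j` have neighbourhoods of bounded order at the points of rank `i`. -/
def StructBdd (U : Ω → Set Ω) (rk : Ω → ℕ) (j i : ℕ) : Prop :=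
  ∃ (W : Ω → Set Ω) (N : ℕ), (∀ x, IsClopen (W x) ∧ x ∈ W x ∧ W x ⊆ U x) ∧
    ∀ y, rk y = i → ∀ T : Finset Ω, (∀ x ∈ T, rk x = j ∧ y ∈ W x) → T.card ≤ N

omit [CompactSpace Ω] [T2Space Ω] [TotallyDisconnectedSpace Ω] in
theorem RS.struct_bdd_of_le {U : Ω → Set Ω} {rk : Ω → ℕ} {H : ℕ} (h : RS U rk H) {j i : ℕ}
    (hji : j ≤ i) : StructBdd U rk j i := by
  refine ⟨U, 1, fun x => ⟨h.clopen x, h.self x, Subset.rfl⟩, fun y hy T hT => ?_⟩
  have : T ⊆ {y} := fun x hx => by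
    rw [Finset.mem_singleton]
    by_contra hne
    have := h.lt x y (hT x hx).2 (Ne.symm hne)
    rw [hy, (hT x hx).1] at this
    omega
  simpa using Finset.card_le_card this

omit [CompactSpace Ω] [T2Space Ω] [TotallyDisconnectedSpace Ω] in
theorem RS.struct_bdd_of_ge {U : Ω → Set Ω} {rk : Ω → ℕ} {H : ℕ} (h : RS U rk H) {j i : ℕ}
    (hj : H ≤ j) : StructBdd U rk j i := by
  refine ⟨U, 0, fun x => ⟨h.clopen x, h.self x, Subset.rfl⟩, fun y _ T hT => ?_⟩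
  rw [Nat.le_zero, Finset.card_eq_zero, Finset.eq_empty_iff_forall_notMem]
  intro x hx
  have := h.bd x
  rw [(hT x hx).1] at this
  omega

omit [CompactSpace Ω] [T2Space Ω] [TotallyDisconnectedSpace Ω] in
theorem RS.struct_common {U : Ω → Set Ω} {rk : Ω → ℕ} {H : ℕ} (h : RS U rk H) :
    ∃ (W : Ω → Set Ω) (N : ℕ), (∀ x, IsClopen (W x) ∧ x ∈ W x ∧ W x ⊆ U x) ∧
      ∀ j i, StructBdd U rk j i → ∀ y, rk y = i → ∀ T : Finset Ω,
        (∀ x ∈ T, rk x = j ∧ y ∈ W x) → T.card ≤ N := by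
  classical
  have hch : ∀ p : ℕ × ℕ, ∃ (W : Ω → Set Ω) (N : ℕ),
      (∀ x, IsClopen (W x) ∧ x ∈ W x ∧ W x ⊆ U x) ∧ (StructBdd U rk p.1 p.2 →
        ∀ y, rk y = p.2 → ∀ T : Finset Ω, (∀ x ∈ T, rk x = p.1 ∧ y ∈ W x) → T.card ≤ N) := by
    intro p
    by_cases hp : StructBdd U rk p.1 p.2
    · obtain ⟨W, N, h1, h2⟩ := hp
      exact ⟨W, N, h1, fun _ => h2⟩
    · exact ⟨U, 0, fun x => ⟨h.clopen x, h.self x, Subset.rfl⟩, fun h' => absurd h' hp⟩
  choose W N hW hN using hch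
  let P : Finset (ℕ × ℕ) := Finset.range H ×ˢ Finset.range H
  refine ⟨fun x => U x ∩ ⋂ p ∈ P, W p x, P.sup N, fun x => ⟨?_, ?_, inter_subset_left⟩,
    fun j i hb y hy T hT => ?_⟩
  · exact (h.clopen x).inter (isClopen_biInter_finset fun p _ => (hW p x).1)
  · exact ⟨h.self x, mem_iInter₂.mpr fun p _ => (hW p x).2.1⟩
  · rcases T.eq_empty_or_nonempty with rfl | ⟨x₀, hx₀⟩
    · simp
    have hp : (j, i) ∈ P := by
      simp only [P, Finset.mem_product, Finset.mem_range]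
      exact ⟨(hT x₀ hx₀).1 ▸ h.bd x₀, hy ▸ h.bd y⟩
    refine (hN (j, i) hb y hy T fun x hx => ⟨(hT x hx).1, ?_⟩).trans (Finset.le_sup hp)
    exact mem_iInter₂.mp (hT x hx).2.2 (j, i) hp

theorem RS.exists_fam {U : Ω → Set Ω} {rk : Ω → ℕ} {H : ℕ} (h : RS U rk H) (hB : ¬ HasB U) :
    ∃ N, ∀ k, ∃ (q : Ω) (Γ D : Set Ω), Fam q Γ D N ∧ ¬ Small D k Γ := by
  classical
  obtain ⟨W, N, hW, hN⟩ := h.struct_common
  have hWn : ∀ x, W x ∈ 𝓝 x := fun x => (hW x).1.isOpen.mem_nhds (hW x).2.1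
  -- counting over several ranks
  have hcount : ∀ (y : Ω) (T : Finset Ω),
      (∀ x ∈ T, StructBdd U rk (rk x) (rk y) ∧ y ∈ W x) → T.card ≤ N * H := by
    intro y T hT
    have := Finset.card_le_mul_card_image_of_maps_to (f := rk) (s := T) (t := Finset.range H)
      (fun x _ => Finset.mem_range.mpr (h.bd x)) N (fun b _ => by
        rcases (T.filter fun a => rk a = b).eq_empty_or_nonempty with he | ⟨x₀, hx₀⟩
        · rw [he]; simp
        · rw [Finset.mem_filter] at hx₀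
          refine hN b (rk y) (hx₀.2 ▸ (hT x₀ hx₀.1).1) y rfl _ fun x hx => ?_
          rw [Finset.mem_filter] at hx
          exact ⟨hx.2, (hT x hx.1).2⟩)
    simpa using this
  -- a failing pair
  have hfail : ∃ j, ∃ i, ¬ StructBdd U rk j i := by
    by_contra hcon
    push Not at hcon
    exact hB ⟨W, N * H, hW, fun y T hT => hcount y T fun x hx => ⟨hcon _ _, hT x hx⟩⟩
  obtain ⟨j, ⟨i₀, hi₀⟩, hjmax⟩ : ∃ j, (∃ i, ¬ StructBdd U rk j i) ∧
      ∀ j', j < j' → ∀ i', StructBdd U rk j' i' := by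
    obtain ⟨j₀, hj₀⟩ := hfail
    have hbd : ∀ j, (∃ i, ¬ StructBdd U rk j i) → j ≤ H := fun j ⟨i, hi⟩ => by
      by_contra hc
      exact hi (h.struct_bdd_of_ge (by omega))
    refine ⟨Nat.findGreatest (fun j => ∃ i, ¬ StructBdd U rk j i) H,
      Nat.findGreatest_spec (P := fun j => ∃ i, ¬ StructBdd U rk j i) (hbd j₀ hj₀) hj₀,
      fun j' hj' i' => ?_⟩
    by_contra hc
    have := Nat.le_findGreatest (P := fun j => ∃ i, ¬ StructBdd U rk j i) (hbd j' ⟨i', hc⟩) ⟨i', hc⟩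
    omega
  obtain ⟨i, hi, himax⟩ : ∃ i, ¬ StructBdd U rk j i ∧ ∀ i', i < i' → StructBdd U rk j i' := by
    have hbd : ∀ i, ¬ StructBdd U rk j i → i ≤ j := fun i hi => by
      by_contra hc
      exact hi (h.struct_bdd_of_le (by omega))
    refine ⟨Nat.findGreatest (fun i => ¬ StructBdd U rk j i) j,
      Nat.findGreatest_spec (P := fun i => ¬ StructBdd U rk j i) (hbd i₀ hi₀) hi₀,
      fun i' hi' => ?_⟩
    by_contra hc
    have := Nat.le_findGreatest (P := fun i => ¬ StructBdd U rk j i) (hbd i' hc) hc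
    omega
  have hij : i < j := by
    by_contra hc
    exact hi (h.struct_bdd_of_le (by omega))
  let D : Set Ω := {y | rk y = i}
  let Γ : Ω → Set Ω := fun z =>
    {γ | rk γ = j ∧ γ ∈ W z ∧ ∀ z', j < rk z' → γ ∈ W z' → rk z ≤ rk z'}
  have hfam : ∀ z, j < rk z → Fam z (Γ z) D N := by
    intro z hz
    refine ⟨fun hm => ?_, fun O hO hzO => ?_, ?_, W, fun γ _ => hWn γ, fun T hT hc => ?_⟩
    · have := hm.1
      omega
    · by_contra hinf
      obtain ⟨y, hy, hacc⟩ := Set.Infinite.exists_accPt_of_subset_isCompact hinf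
        ((hW z).1.isClosed.inter hO.isClosed).isCompact (fun γ hγ => ⟨hγ.1.2.1, hγ.2⟩)
      have hyz : y ≠ z := fun he => hzO (he ▸ hy.2)
      have h1 : rk y < rk z := h.lt z y ((hW z).2.2 hy.1) hyz
      obtain ⟨γ, ⟨hγy, hγ, -⟩, hne⟩ := accPt_iff_nhds.mp hacc (W y) (hWn y)
      have h2 : rk γ < rk y := h.lt y γ ((hW y).2.2 hγy) hne
      have h3 := hγ.2.2 y (hγ.1 ▸ h2) hγy
      omega
    · rw [Set.disjoint_left]
      intro γ hγ hD
      have h1 : rk γ = j := hγ.1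
      have h2 : rk γ = i := hD
      omega
    · have he : {v | v ∈ D ∧ ∀ γ ∈ T, v ∈ W γ} = {y | i ≤ rk y} ∩ ⋂ γ ∈ T, W γ := by
        ext v
        simp only [D, mem_ofPred_eq, mem_inter_iff, mem_iInter]
        refine ⟨fun hv => ⟨hv.1.ge, hv.2⟩, fun hv => ⟨?_, hv.2⟩⟩
        by_contra hne
        have := hN j (rk v) (himax _ (lt_of_le_of_ne hv.1 (Ne.symm hne))) v rfl T
          fun x hx => ⟨(hT x hx).1, hv.2 x hx⟩
        omega
      refine h.finite_level (j := i) ?_ fun x hx => hx.1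
      rw [he]
      exact (h.struct_closed_ge i).inter (isClosed_biInter fun γ _ => (hW γ).1.isClosed)
  refine ⟨N, fun k => ?_⟩
  by_contra hcon
  push Not at hcon
  have hsm : ∀ z, ∃ V : Ω → Set Ω, j < rk z → (∀ γ ∈ Γ z, V γ ∈ 𝓝 γ) ∧
      ∀ v ∈ D, ∀ T : Finset Ω, (∀ γ ∈ T, γ ∈ Γ z ∧ v ∈ V γ) → T.card ≤ k := by
    intro z
    by_cases hz : j < rk z
    · obtain ⟨V, hV⟩ := hcon z (Γ z) D (hfam z hz)
      exact ⟨V, fun _ => hV⟩
    · exact ⟨W, fun h' => absurd h' hz⟩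
  choose V hV using hsm
  let F : Set Ω := {y | j ≤ rk y} ∩ (⋃ z ∈ {z | j < rk z}, W z)ᶜ
  have hF : F.Finite := by
    refine h.finite_level (j := j) ((h.struct_closed_ge j).inter
      (isOpen_biUnion fun z _ => (hW z).1.isOpen).isClosed_compl) fun x hx => ?_
    by_contra hne
    exact hx.2 (mem_biUnion (lt_of_le_of_ne hx.1 (Ne.symm hne)) (hW x).2.1)
  have hz : ∀ γ, ∃ (z : Ω) (W' : Set Ω), IsClopen W' ∧ γ ∈ W' ∧ W' ⊆ U γ ∧
      (rk γ = j → γ ∉ F → j < rk z ∧ γ ∈ Γ z ∧ W' ⊆ W z ∧ W' ⊆ V z γ) := by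
    intro γ
    by_cases hγ : rk γ = j ∧ γ ∉ F
    · have h1 : ∃ m, ∃ z, rk z = m ∧ j < rk z ∧ γ ∈ W z := by
        by_contra hc
        refine hγ.2 ⟨hγ.1.ge, fun hm => ?_⟩
        obtain ⟨z, hz, hγz⟩ := mem_iUnion₂.mp hm
        exact hc ⟨rk z, z, rfl, hz, hγz⟩
      obtain ⟨z, hz1, hz2, hz3⟩ := Nat.find_spec h1
      have hΓ : γ ∈ Γ z := ⟨hγ.1, hz3, fun z' h1' h2' => hz1 ▸ Nat.find_min' h1 ⟨z', rfl, h1', h2'⟩⟩
      obtain ⟨W', hW1, hW2, hW3⟩ := struct_clopen_sub (inter_mem (inter_mem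
        ((h.clopen γ).isOpen.mem_nhds (h.self γ)) ((hW z).1.isOpen.mem_nhds hz3))
        ((hV z hz2).1 γ hΓ))
      exact ⟨z, W', hW1, hW2, fun x hx => (hW3 hx).1.1, fun _ _ =>
        ⟨hz2, hΓ, fun x hx => (hW3 hx).1.2, fun x hx => (hW3 hx).2⟩⟩
    · exact ⟨γ, U γ, h.clopen γ, h.self γ, Subset.rfl, fun h1 h2 => absurd ⟨h1, h2⟩ hγ⟩
  choose z W' hW1 hW2 hW3 hW4 using hz
  refine hi ⟨W', hF.toFinset.card + k * (N * H), fun x => ⟨hW1 x, hW2 x, hW3 x⟩,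
    fun y hy T hT => ?_⟩
  rw [← Finset.card_filter_add_card_filter_not (s := T) (fun x => x ∈ F)]
  refine add_le_add (Finset.card_le_card fun x hx => ?_) ?_
  · exact hF.mem_toFinset.mpr (Finset.mem_filter.mp hx).2
  · set T' := T.filter fun x => ¬ x ∈ F with hT'
    have hT'' : ∀ x ∈ T', j < rk (z x) ∧ x ∈ Γ (z x) ∧ y ∈ W (z x) ∧ y ∈ V (z x) x := by
      intro x hx
      rw [hT', Finset.mem_filter] at hx
      obtain ⟨a, b, c, d⟩ := hW4 x (hT x hx.1).1 hx.2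
      exact ⟨a, b, c (hT x hx.1).2, d (hT x hx.1).2⟩
    refine (Finset.card_le_mul_card_image (f := z) T' k fun b hb => ?_).trans
      (Nat.mul_le_mul_left k (hcount y _ fun b hb => ?_))
    · obtain ⟨x₀, hx₀, rfl⟩ := Finset.mem_image.mp hb
      refine (hV (z x₀) (hT'' x₀ hx₀).1).2 y hy _ fun x hx => ?_
      rw [Finset.mem_filter] at hx
      rw [← hx.2]
      exact ⟨(hT'' x hx.1).2.1, (hT'' x hx.1).2.2.2⟩
    · obtain ⟨x₀, hx₀, rfl⟩ := Finset.mem_image.mp hb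
      exact ⟨hjmax _ (hT'' x₀ hx₀).1 _, (hT'' x₀ hx₀).2.2.1⟩

end Pool.Agent.MP_75da70_an.H8
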